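import Pool.Agent.H164R2.Edges

set_option autoImplicit false
set_option linter.unusedSectionVars false

/-!
A 2-regular subgraph S all of whose bridges have a nowhere-zero 4-flow after contraction of E(S) is
one of five even sets that cover every edge twice. (Files H164R2.Graph, Main, Strong, Edges with the
conclusion replaced by the five even sets which they construct.)
-/

open Finset Matrix

namespace Pool.Agent.TH700.S5

open Pool.Agent.H164R2
open Pool.Agent.Helper347.Sab
open Pool.Agent.Helper998.Near (Rch join mem_decomp rch_symm)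

variable {V E : Type} [Fintype V] [DecidableEq V] [Fintype E] [DecidableEq E]

/-- S is the first of five even sets such that every edge of H lies in exactly two of them and no
other edge in any -/
def Five (G : MGraph V E) (H S : Finset E) : Prop :=
  ∃ Q : Fin 5 → Finset E, (∀ i, Ev G (Q i)) ∧
    (∀ e, (univ.filter fun i => e ∈ Q i).card = if e ∈ H then 2 else 0) ∧ Q 0 = S

section
variable {K : Type} [Field K] [Fintype K] [DecidableEq K] [CharP K 2]

/-- double covers from a flow whose zeros in H lie on S and meet an even set in S exactly there -/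
theorem cover5 (G : MGraph V E) (H S D : Finset E) (hSH : S ⊆ H) (hDH : D ⊆ H)
    (hH : ∀ v, dg G H v ≤ 3) (hS : ∀ v, dg G S v = 0 ∨ dg G S v = 2) (hD : Ev G D)
    (p q : K →+ ZMod 2) (hpq : ∀ x, p x = 0 → q x = 0 → x = 0)
    (a : E → K) (ha : ∀ v, bd G a v = 0) (haH : ∀ e, e ∉ H → a e = 0)
    (hnz : ∀ e ∈ H, e ∉ S → a e ≠ 0) (hDS : ∀ e ∈ S, (e ∈ D ↔ a e = 0)) :
    Five G H S := by
  have hev : ∀ r : K →+ ZMod 2, Ev G (univ.filter fun e => r (a e) ≠ 0) := by
    intro r v
    rw [Pool.Agent.Helper998.Near.even_iff_cast]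
    have h1 : r (bd G a v) = 0 := by rw [ha v, map_zero]
    unfold bd at h1
    rw [map_sum] at h1
    unfold dg
    rw [card_filter, Nat.cast_sum, sum_filter]
    refine Eq.trans (sum_congr rfl fun e _ => ?_) h1
    by_cases h2 : v ∈ G.ends e
    · simp only [h2, if_true]
      rcases z2_cases (r (a e)) with h | h
      · simp [h]
      · simp [h]
    · simp [h2]
  obtain ⟨A, hA⟩ : ∃ A : Finset E, A = univ.filter fun e => p (a e) ≠ 0 := ⟨_, rfl⟩
  obtain ⟨B, hB⟩ : ∃ B : Finset E, B = univ.filter fun e => q (a e) ≠ 0 := ⟨_, rfl⟩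
  have hAe : Ev G A := by rw [hA]; exact hev p
  have hBe : Ev G B := by rw [hB]; exact hev q
  have hAB0 : ∀ e, (e ∉ A ∧ e ∉ B) ↔ a e = 0 := by
    intro e
    rw [hA, hB, mem_filter, mem_filter]
    simp only [mem_univ, true_and, not_not, ne_eq]
    constructor
    · rintro ⟨h1, h2⟩
      exact hpq _ h1 h2
    · intro h
      rw [h, map_zero, map_zero]
      exact ⟨rfl, rfl⟩
  have hAH : A ⊆ H := by
    intro e he
    by_contra hcon
    exact ((hAB0 e).2 (haH e hcon)).1 he
  have hBH : B ⊆ H := by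
    intro e he
    by_contra hcon
    exact ((hAB0 e).2 (haH e hcon)).2 he
  have hSe : Ev G S := by
    intro v; rcases hS v with h | h <;> rw [h] <;> decide
  have hSD := ev_symmDiff hSe hD
  have hAB := ev_symmDiff hAe hBe
  refine ⟨![S, D, symmDiff (symmDiff S D) A, symmDiff (symmDiff S D) B,
    symmDiff (symmDiff S D) (symmDiff A B)], ?_, ?_, rfl⟩
  · intro i
    fin_cases i
    · exact hSe
    · exact hD
    · exact ev_symmDiff hSD hAe
    · exact ev_symmDiff hSD hBe
    · exact ev_symmDiff hSD hAB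
  · intro e
    have h1 : e ∈ S → e ∈ H := @hSH e
    have h2 : e ∈ D → e ∈ H := @hDH e
    have h3 : e ∈ A → e ∈ H := @hAH e
    have h4 : e ∈ B → e ∈ H := @hBH e
    have h5 : e ∈ H → e ∉ S → e ∈ A ∨ e ∈ B := by
      intro hH' hS'
      by_contra hcon
      rw [not_or] at hcon
      exact hnz e hH' hS' ((hAB0 e).1 hcon)
    have h6 : e ∈ S → (e ∈ D ↔ (e ∉ A ∧ e ∉ B)) := by
      intro hS'
      rw [hDS e hS', hAB0 e]
    rw [card_filter, Fin.sum_univ_five]
    simp only [Matrix.cons_val_zero, Matrix.cons_val_one, Matrix.cons_val, mem_symmDiff]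
    by_cases a1 : e ∈ S <;> by_cases a2 : e ∈ D <;> by_cases a3 : e ∈ A <;>
      by_cases a4 : e ∈ B <;> by_cases a5 : e ∈ H <;> simp_all

theorem main_flow {B : Type} [Fintype B] [DecidableEq B] (h4 : ∀ x : K, x ^ 4 = x)
    (w : K) (hw0 : w ≠ 0) (hw1 : w ≠ 1)
    (p q : K →+ ZMod 2) (hpq : ∀ x, p x = 0 → q x = 0 → x = 0)
    (G : MGraph V E) (H S : Finset E) (hSH : S ⊆ H)
    (hH : ∀ v, dg G H v ≤ 3) (hS : ∀ v, dg G S v = 0 ∨ dg G S v = 2)
    (cls : V → B) (hcls : ∀ u v, cls u = cls v → Rch G (H \ S) u v)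
    (z : B → E → K) (hz : ∀ b v, bd G (z b) v = 0)
    (hzH : ∀ b e, e ∉ H → z b e = 0)
    (hz0 : ∀ b e, e ∈ H → e ∉ S → ∀ v ∈ G.ends e, cls v ≠ b → z b e = 0)
    (hz1 : ∀ e, e ∈ H → e ∉ S → ∀ v ∈ G.ends e, z (cls v) e ≠ 0) :
    Five G H S := by
  classical
  rcases isEmpty_or_nonempty E with hE | hE
  · refine ⟨fun _ => S, fun i v => ?_, fun e => (hE.false e).elim, rfl⟩
    have h0 : S = ∅ := Finset.eq_empty_of_isEmpty S
    simp [dg, h0]
  have hVne : Nonempty V := by
    obtain ⟨u, _, _, _⟩ := exists_ends G hE.some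
    exact ⟨u⟩
  -- chosen S-edges
  have hch : ∀ v, ∃ e1 e2, dg G S v = 2 →
      (e1 ≠ e2 ∧ S.filter (fun e => v ∈ G.ends e) = {e1, e2}) := by
    intro v
    by_cases hv : dg G S v = 2
    · obtain ⟨e1, e2, h1, h2⟩ := two_edges G S v hv
      exact ⟨e1, e2, fun _ => ⟨h1, h2⟩⟩
    · exact ⟨hE.some, hE.some, fun h => absurd h hv⟩
  choose s s' hs using hch
  obtain ⟨φ, hφ⟩ : ∃ φ : V → K, ∀ v, φ v = if dg G S v = 2 then
      ∑ e ∈ (univ \ S).filter (fun e => v ∈ G.ends e), z (cls v) e else 0 := ⟨_, fun _ => rfl⟩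
  obtain ⟨a, haDef⟩ : ∃ a : (B → K) → E → K, ∀ x e, a x e = ∑ b, x b * z b e :=
    ⟨_, fun _ _ => rfl⟩
  have ha : ∀ x v, bd G (a x) v = 0 := by
    intro x v
    have h1 : bd G (a x) v = ∑ b, x b * bd G (z b) v := by
      unfold bd
      simp only [mul_sum]
      rw [sum_comm]
      refine sum_congr rfl fun e _ => ?_
      by_cases h : v ∈ G.ends e
      · simp only [h, if_true, haDef]
      · simp [h]
    rw [h1]
    exact sum_eq_zero fun b _ => by rw [hz, mul_zero]
  have haH : ∀ x e, e ∉ H → a x e = 0 := by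
    intro x e he
    rw [haDef]
    exact sum_eq_zero fun b _ => by rw [hzH b e he, mul_zero]
  have haT : ∀ x e, e ∉ S → ∀ v ∈ G.ends e, a x e = x (cls v) * z (cls v) e := by
    intro x e heS v hv
    by_cases he : e ∈ H
    · rw [haDef, sum_eq_single (cls v)]
      · intro b _ hb
        rw [hz0 b e he heS v hv (Ne.symm hb), mul_zero]
      · intro h
        exact absurd (mem_univ _) h
    · rw [haH x e he, hzH _ e he, mul_zero]
  obtain ⟨Z, hZ⟩ : ∃ Z : (B → K) → Finset E, ∀ x, Z x = S.filter fun e => a x e = 0 :=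
    ⟨_, fun _ => rfl⟩
  have hcount : ∀ x v, ((dg G (Z x) v : ℕ) : K) = (x (cls v) * φ v) ^ 3 +
      (x (cls v) * φ v) * a x (s v) ^ 2 + (x (cls v) * φ v) ^ 2 * a x (s v) := by
    intro x v
    rcases hS v with h | h
    · have h1 : dg G (Z x) v = 0 := by
        have := dg_mono (G := G) (X := Z x) (Y := S) (by rw [hZ]; exact filter_subset _ _) v
        omega
      rw [h1, hφ, if_neg (by omega)]
      push_cast
      ring
    · rw [hZ]
      refine zero_count h4 G S (a x) v (ha x v) (s v) (s' v) (hs v h).1 (hs v h).2 _ ?_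
      rw [hφ, if_pos h, mul_sum]
      refine sum_congr rfl fun e he => ?_
      rw [mem_filter, mem_sdiff] at he
      exact (haT x e he.1.2 v he.2).symm
  obtain ⟨m, hm⟩ : ∃ m : B → K, ∀ b, m b = ∑ v, if cls v = b then φ v ^ 3 else 0 :=
    ⟨_, fun _ => rfl⟩
  obtain ⟨M, hM⟩ : ∃ M : Matrix B B K, ∀ b c, M b c =
      ∑ v, if cls v = b then φ v ^ 2 * z c (s v) else 0 := ⟨_, fun _ _ => rfl⟩
  have hMx : ∀ x b, (M *ᵥ x) b = ∑ v, if cls v = b then φ v ^ 2 * a x (s v) else 0 := by
    intro x b
    unfold Matrix.mulVec dotProduct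
    simp only [hM, sum_mul]
    rw [sum_comm]
    refine sum_congr rfl fun v _ => ?_
    by_cases h : cls v = b
    · simp only [h, if_true, haDef, mul_sum]
      refine sum_congr rfl fun c _ => ?_
      ring
    · simp [h]
  have hform : ∀ x b, x b ^ 3 * m b + x b * (M *ᵥ x) b ^ 2 + x b ^ 2 * (M *ᵥ x) b =
      ∑ v, if cls v = b then ((dg G (Z x) v : ℕ) : K) else 0 := by
    intro x b
    rw [hMx, sq_sum, hm, mul_sum, mul_sum, mul_sum, ← sum_add_distrib, ← sum_add_distrib]
    refine sum_congr rfl fun v _ => ?_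
    by_cases h : cls v = b
    · simp only [h, if_true]
      rw [hcount, h]
      have h5 := h4 (φ v)
      linear_combination (x b * a x (s v) ^ 2) * h5
    · simp [h]
  have htot : ∀ x : B → K,
      ∑ b, (x b ^ 3 * m b + x b * (M *ᵥ x) b ^ 2 + x b ^ 2 * (M *ᵥ x) b) = 0 := by
    intro x
    simp only [hform]
    rw [sum_comm]
    have h1 : ∀ v, ∑ b, (if cls v = b then ((dg G (Z x) v : ℕ) : K) else 0) =
        ((dg G (Z x) v : ℕ) : K) := by
      intro v
      rw [sum_ite_eq, if_pos (mem_univ _)]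
    simp only [h1]
    rw [← Nat.cast_sum]
    exact (even_iff_castK _).1 (handshake G (Z x))
  obtain ⟨x, hx0, hx⟩ := solve h4 w hw0 hw1 m M htot
  -- parity on the classes
  have hpar : ∀ b, Even (∑ v, if cls v = b then dg G (Z x) v else 0) := by
    intro b
    rw [even_iff_castK (K := K)]
    have h1 := hx b
    rw [hform] at h1
    push_cast
    exact h1
  have hrep : ∀ b, ∃ r, ∀ v, cls v = b → cls r = b := by
    intro b
    by_cases h : ∃ v, cls v = b
    · obtain ⟨v, hv⟩ := h
      exact ⟨v, fun _ _ => hv⟩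
    · exact ⟨hVne.some, fun v hv => absurd ⟨v, hv⟩ h⟩
  choose rep hrep using hrep
  obtain ⟨J, hJ, hJp⟩ := join G (H \ S) (fun v => ((dg G (Z x) v : ℕ) : ZMod 2))
    (fun v => rep (cls v)) (fun v _ => hcls _ _ (hrep _ v rfl).symm)
  have hJ' : ∀ v, ((dg G J v : ℕ) : ZMod 2) = ((dg G (Z x) v : ℕ) : ZMod 2) := by
    intro v
    rw [hJp v]
    have h1 : ∑ u, (if v = rep (cls u) then ((dg G (Z x) u : ℕ) : ZMod 2) else 0) = 0 := by
      by_cases hv : v = rep (cls v)
      · have h2 : ∀ u, (if v = rep (cls u) then ((dg G (Z x) u : ℕ) : ZMod 2) else 0) =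
            ((if cls u = cls v then dg G (Z x) u else 0 : ℕ) : ZMod 2) := by
          intro u
          by_cases h : cls u = cls v
          · rw [if_pos h, if_pos (by rw [h]; exact hv)]
          · rw [if_neg h, if_neg, Nat.cast_zero]
            intro h3
            apply h
            rw [h3]
            exact (hrep (cls u) u rfl).symm
        simp only [h2]
        rw [← Nat.cast_sum]
        exact (Pool.Agent.Helper998.Near.even_iff_cast _).1 (hpar (cls v))
      · refine sum_eq_zero fun u _ => ?_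
        rw [if_neg]
        intro h3
        apply hv
        have h4 : cls v = cls u := by rw [h3]; exact hrep (cls u) u rfl
        rw [h4]
        exact h3
    rw [h1, add_zero]
  have hZS : Z x ⊆ S := by rw [hZ]; exact filter_subset _ _
  have hdisj : Disjoint (Z x) J := by
    rw [disjoint_left]
    intro e h1 h2
    exact (mem_sdiff.1 (hJ h2)).2 (hZS h1)
  refine cover5 G H S (Z x ∪ J) hSH ?_ hH hS ?_ p q hpq (a x) (ha x) (haH x) ?_ ?_
  · intro e he
    rw [mem_union] at he
    rcases he with h | h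
    · exact hSH (hZS h)
    · exact (mem_sdiff.1 (hJ h)).1
  · intro v
    have h1 := dg_sdiff (G := G) (X := Z x ∪ J) (Y := Z x) subset_union_left v
    have h3 : (Z x ∪ J) \ Z x = J := by
      rw [union_sdiff_left]
      exact sdiff_eq_self_of_disjoint hdisj.symm
    rw [h3] at h1
    rw [Pool.Agent.Helper998.Near.even_iff_cast, ← h1, Nat.cast_add, hJ' v]
    exact CharTwo.add_self_eq_zero _
  · intro e he heS
    obtain ⟨u, v, _, hends⟩ := exists_ends G e
    have hu : u ∈ G.ends e := by rw [hends]; simp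
    rw [haT x e heS u hu]
    exact mul_ne_zero (hx0 _) (hz1 e he heS u hu)
  · intro e he
    rw [mem_union, hZ, mem_filter]
    constructor
    · rintro (h | h)
      · exact h.2
      · exact absurd he (mem_sdiff.1 (hJ h)).2
    · intro h
      exact Or.inl ⟨he, h⟩


end

/-- The main theorem: if every bridge of the 2-regular subgraph S of the subcubic graph H has its
own nowhere-zero 4-flow after contraction of E(S), then some circuit double cover of H contains
all circuits of S. -/
theorem strong (G : MGraph V E) (H S : Finset E) (hSH : S ⊆ H)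
    (hH : ∀ v, dg G H v ≤ 3) (hS : ∀ v, dg G S v = 0 ∨ dg G S v = 2)
    (h : ∀ v : V, ∃ A B : Finset E, Ev G A ∧ Ev G B ∧ A ⊆ H ∧ B ⊆ H ∧
      (∀ f, f ∉ S → (f ∈ A ∨ f ∈ B) → ∀ u ∈ G.ends f, Rch G (H \ S) v u) ∧
      (∀ f ∈ H, f ∉ S → (∀ u ∈ G.ends f, Rch G (H \ S) v u) → f ∈ A ∨ f ∈ B)) :
    Five G H S := by
  classical
  let _inst : Fintype (GaloisField 2 2) := Fintype.ofFinite _
  have hcard : Fintype.card (GaloisField 2 2) = 4 := by
    rw [← Nat.card_eq_fintype_card, GaloisField.card 2 2 (by norm_num)]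
    norm_num
  have h4 : ∀ x : GaloisField 2 2, x ^ 4 = x := by
    intro x
    have := FiniteField.pow_card x
    rwa [hcard] at this
  obtain ⟨w, hw⟩ : ∃ w : GaloisField 2 2, w ∉ ({0, 1} : Finset (GaloisField 2 2)) := by
    by_contra hcon
    push Not at hcon
    have h1 : (univ : Finset (GaloisField 2 2)) ⊆ {0, 1} := fun x _ => hcon x
    have h2 := card_le_card h1
    rw [card_univ, hcard] at h2
    have h3 : ({0, 1} : Finset (GaloisField 2 2)).card ≤ 2 := card_le_two
    omega
  rw [mem_insert, mem_singleton, not_or] at hw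
  obtain ⟨hw0, hw1⟩ := hw
  let bas := Module.finBasisOfFinrankEq (ZMod 2) (GaloisField 2 2)
    (GaloisField.finrank 2 (n := 2) (by norm_num))
  have hpq : ∀ x : GaloisField 2 2, (bas.coord 0).toAddMonoidHom x = 0 →
      (bas.coord 1).toAddMonoidHom x = 0 → x = 0 := by
    intro x h1 h2
    apply bas.ext_elem
    intro i
    rw [map_zero, Finsupp.zero_apply]
    fin_cases i
    · exact h1
    · exact h2
  -- classes
  let st : Setoid V := ⟨Rch G (H \ S), ⟨fun _ => Relation.ReflTransGen.refl,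
    fun hab => rch_symm G _ _ _ hab, fun hab hbc => hab.trans hbc⟩⟩
  have hrep : ∀ b : Quotient st, ∃ v, (Quotient.mk st v) = b := fun b => Quotient.exists_rep b
  choose rep hrep using hrep
  choose A B hA hB hAH hBH h1 h2 using h
  have hcl : ∀ u v, Quotient.mk st u = Quotient.mk st v ↔ Rch G (H \ S) u v := by
    intro u v
    exact Quotient.eq
  have hone : ∀ f ∈ H, f ∉ S → ∀ u ∈ G.ends f, ∀ v ∈ G.ends f, Rch G (H \ S) u v := by
    intro f hf hfS u hu v hv
    by_cases huv : u = v
    · rw [huv]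
    · refine Relation.ReflTransGen.single ⟨f, mem_sdiff.2 ⟨hf, hfS⟩, ?_⟩
      exact (Sym2.mem_and_mem_iff huv).1 ⟨hu, hv⟩
  have hwne : (1 : GaloisField 2 2) + w ≠ 0 := by
    intro h3
    apply hw1
    have h5 := two0 (1 : GaloisField 2 2)
    linear_combination h3 - h5
  refine main_flow (K := GaloisField 2 2) h4 w hw0 hw1 _ _ hpq G H S hSH hH hS
    (Quotient.mk st) (fun u v huv => (hcl u v).1 huv)
    (fun b e => (if e ∈ A (rep b) then 1 else 0) + (if e ∈ B (rep b) then w else 0)) ?_ ?_ ?_ ?_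
  · intro b v
    have h3 := bd_ind (K := GaloisField 2 2) G _ 1 (hA (rep b)) v
    have h5 := bd_ind (K := GaloisField 2 2) G _ w (hB (rep b)) v
    have h7 : bd G (fun e => (if e ∈ A (rep b) then 1 else 0) +
        (if e ∈ B (rep b) then w else 0)) v =
        bd G (fun e => if e ∈ A (rep b) then (1 : GaloisField 2 2) else 0) v +
        bd G (fun e => if e ∈ B (rep b) then w else 0) v := by
      unfold bd
      rw [← sum_add_distrib]
      refine sum_congr rfl fun e _ => ?_
      by_cases h6 : v ∈ G.ends e <;> simp [h6]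
    rw [h7, h3, h5, add_zero]
  · intro b e he
    rw [if_neg fun h3 => he (hAH _ h3), if_neg fun h3 => he (hBH _ h3), add_zero]
  · intro b e he heS v hv hvb
    have h3 : ¬ (e ∈ A (rep b) ∨ e ∈ B (rep b)) := by
      intro h5
      apply hvb
      rw [← hrep b]
      exact (hcl _ _).2 (rch_symm G _ _ _ (h1 _ e heS h5 v hv))
    rw [not_or] at h3
    rw [if_neg h3.1, if_neg h3.2, add_zero]
  · intro e he heS v hv
    have h3 : Rch G (H \ S) (rep (Quotient.mk st v)) v := (hcl _ _).1 (hrep _)
    have h5 := h2 (rep (Quotient.mk st v)) e he heS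
      (fun u hu => h3.trans (hone e he heS v hv u hu))
    by_cases h6 : e ∈ A (rep (Quotient.mk st v)) <;> by_cases h7 : e ∈ B (rep (Quotient.mk st v))
    · simp only [h6, h7, if_true]; exact hwne
    · simp [h6, h7]
    · simp only [h6, h7, if_true, if_false, zero_add]; exact hw0
    · exact absurd h5 (by tauto)


/-- edge version of the main theorem -/
theorem strong_edges (G : MGraph V E) (H S : Finset E) (hSH : S ⊆ H)
    (hH : ∀ v, dg G H v ≤ 3) (hS : ∀ v, dg G S v = 0 ∨ dg G S v = 2)
    (hoff : ∀ f, f ∉ H → ∀ v ∈ G.ends f, dg G S v ≠ 0)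
    (h : ∀ e ∈ H, e ∉ S → ∃ A B : Finset E, Ev G A ∧ Ev G B ∧
      (∀ f ∈ A, f ∈ S ∨ SB G S e f) ∧ (∀ f ∈ B, f ∈ S ∨ SB G S e f) ∧
      ∀ f, f ∉ S → SB G S e f → f ∈ A ∨ f ∈ B) :
    Five G H S := by
  classical
  -- edges outside S at a vertex of S are equal
  have huniq : ∀ v, dg G S v ≠ 0 → ∀ f g, f ∈ H → f ∉ S → g ∈ H → g ∉ S → v ∈ G.ends f →
      v ∈ G.ends g → f = g := by
    intro v hv f g hf hfS hg hgS hvf hvg
    have h1 := dg_sdiff (G := G) hSH v
    have h2 := hH v
    have h3 := hS v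
    have h4 : dg G (H \ S) v ≤ 1 := by omega
    unfold dg at h4
    rw [card_le_one] at h4
    exact h4 f (mem_filter.2 ⟨mem_sdiff.2 ⟨hf, hfS⟩, hvf⟩) g
      (mem_filter.2 ⟨mem_sdiff.2 ⟨hg, hgS⟩, hvg⟩)
  -- chains starting in H \ S stay there
  have hstay : ∀ e ∈ H, e ∉ S → ∀ f, SB G S e f → f ∈ H ∧ f ∉ S := by
    intro e he heS f hf
    induction hf with
    | refl => exact ⟨he, heS⟩
    | tail h0 h1 ih =>
      rename_i b c
      obtain ⟨h2, v, h3, h4, h5⟩ := h1
      refine ⟨?_, h2⟩
      by_contra hcon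
      exact hoff c hcon v h4 h5
  -- a chain of edges gives a walk
  have hwalk : ∀ e ∈ H, e ∉ S → ∀ f, SB G S e f → ∀ v ∈ G.ends e, ∀ u ∈ G.ends f,
      Rch G (H \ S) v u := by
    intro e he heS f hf
    have hone : ∀ g ∈ H, g ∉ S → ∀ v ∈ G.ends g, ∀ u ∈ G.ends g, Rch G (H \ S) v u := by
      intro g hg hgS v hv u hu
      by_cases huv : v = u
      · rw [huv]
      · exact Relation.ReflTransGen.single ⟨g, mem_sdiff.2 ⟨hg, hgS⟩,
          (Sym2.mem_and_mem_iff huv).1 ⟨hv, hu⟩⟩
    induction hf with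
    | refl => exact hone e he heS
    | tail h0 h1 ih =>
      rename_i b c
      intro v hv u hu
      obtain ⟨h2, x, h3, h4, h5⟩ := h1
      have hc := hstay e he heS c (h0.tail ⟨h2, x, h3, h4, h5⟩)
      exact (ih v hv x h3).trans (hone c hc.1 hc.2 x h4 u hu)
  -- a walk gives a chain of edges
  have hchain : ∀ e ∈ H, e ∉ S → ∀ v ∈ G.ends e, ∀ u, Rch G (H \ S) v u → ∀ f ∈ H, f ∉ S →
      u ∈ G.ends f → SB G S e f := by
    intro e he heS v hv u hu
    induction hu with
    | refl =>
      intro f hf hfS hvf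
      by_cases h1 : dg G S v = 0
      · exact Relation.ReflTransGen.single ⟨hfS, v, hv, hvf, h1⟩
      · rw [huniq v h1 e f he heS hf hfS hv hvf]
    | tail h0 h1 ih =>
      rename_i x y
      obtain ⟨g, hg, hends⟩ := h1
      rw [mem_sdiff] at hg
      intro f hf hfS hyf
      have h2 := ih g hg.1 hg.2 (by rw [hends]; simp)
      have hyg : y ∈ G.ends g := by rw [hends]; simp
      by_cases h3 : dg G S y = 0
      · exact h2.tail ⟨hfS, y, hyg, hyf, h3⟩
      · rw [← huniq y h3 g f hg.1 hg.2 hf hfS hyg hyf]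
        exact h2
  refine strong G H S hSH hH hS fun v => ?_
  by_cases hv : ∃ e ∈ H, e ∉ S ∧ v ∈ G.ends e
  · obtain ⟨e, he, heS, hve⟩ := hv
    obtain ⟨A, B, hA, hB, hA1, hB1, hAB⟩ := h e he heS
    refine ⟨A, B, hA, hB, ?_, ?_, ?_, ?_⟩
    · intro f hf
      rcases hA1 f hf with h1 | h1
      · exact hSH h1
      · exact (hstay e he heS f h1).1
    · intro f hf
      rcases hB1 f hf with h1 | h1
      · exact hSH h1
      · exact (hstay e he heS f h1).1
    · intro f hfS hf u hu
      refine hwalk e he heS f ?_ v hve u hu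
      rcases hf with h1 | h1
      · exact (hA1 f h1).resolve_left hfS
      · exact (hB1 f h1).resolve_left hfS
    · intro f hf hfS hreach
      obtain ⟨u, _, _, hends⟩ := exists_ends G f
      have hu : u ∈ G.ends f := by rw [hends]; simp
      exact hAB f hfS (hchain e he heS v hve u (hreach u hu) f hf hfS hu)
  · -- isolated vertex of the complement
    have hiso : ∀ u, Rch G (H \ S) v u → u = v := by
      intro u hu
      induction hu with
      | refl => rfl
      | tail h0 h1 ih =>
        rename_i x y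
        exfalso
        apply hv
        obtain ⟨g, hg, hends⟩ := h1
        rw [mem_sdiff] at hg
        exact ⟨g, hg.1, hg.2, by rw [hends, ih]; simp⟩
    refine ⟨∅, ∅, ?_, ?_, empty_subset _, empty_subset _, ?_, ?_⟩
    · intro u; simp [dg]
    · intro u; simp [dg]
    · rintro f _ (h1 | h1) <;> simp at h1
    · intro f hf hfS hreach
      exfalso
      obtain ⟨u, _, _, hends⟩ := exists_ends G f
      have hu : u ∈ G.ends f := by rw [hends]; simp
      apply hv
      exact ⟨f, hf, hfS, by rw [← hiso u (hreach u hu)]; exact hu⟩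


end Pool.Agent.TH700.S5
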